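import Mathlib
import Pool.Agent.TH161.LW.Cells

/-!
# A cut lemma
-/

set_option autoImplicit false

open Finset
open scoped Classical

namespace Pool.Agent.TH161.LW

/-- `±1` indicator -/
noncomputable def et (R : ℕ) (I : Finset ℕ) : ℝ := if R ∈ I then 1 else -1

/-- add or remove `R` -/
noncomputable def tog (R : ℕ) (I : Finset ℕ) : Finset ℕ := if R ∈ I then I.erase R else insert R I

lemma et_tog_self (R : ℕ) (I : Finset ℕ) : et R (tog R I) = - et R I := by
  unfold et tog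
  by_cases h : R ∈ I <;> simp [h]

lemma et_tog_ne {R R' : ℕ} (h : R ≠ R') (I : Finset ℕ) : et R (tog R' I) = et R I := by
  unfold et tog
  by_cases h' : R' ∈ I <;> simp [h', h]

lemma tog_tog (R : ℕ) (I : Finset ℕ) : tog R (tog R I) = I := by
  unfold tog
  by_cases h : R ∈ I
  · simp [h, Finset.insert_erase h]
  · simp [h, Finset.erase_insert h]

lemma tog_ne (R : ℕ) (I : Finset ℕ) : tog R I ≠ I := by
  intro h
  have := et_tog_self R I
  rw [h] at this
  unfold et at this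
  split_ifs at this <;> norm_num at this

lemma tog_mem {R K : ℕ} (hR : R < K) {I : Finset ℕ} (hI : I ∈ (range K).powerset) :
    tog R I ∈ (range K).powerset := by
  rw [Finset.mem_powerset] at hI ⊢
  unfold tog
  split_ifs
  · exact (Finset.erase_subset _ _).trans hI
  · exact Finset.insert_subset (Finset.mem_range.mpr hR) hI

lemma sum_et {R K : ℕ} (hR : R < K) : ∑ I ∈ (range K).powerset, et R I = 0 := by
  refine Finset.sum_involution (fun I _ => tog R I) ?_ ?_ ?_ ?_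
  · intro I _
    rw [et_tog_self]; ring
  · intro I _ _
    exact tog_ne R I
  · intro I hI
    exact tog_mem hR hI
  · intro I _
    exact tog_tog R I

lemma sum_et_et {R R' K : ℕ} (hR' : R' < K) (h : R ≠ R') :
    ∑ I ∈ (range K).powerset, et R I * et R' I = 0 := by
  refine Finset.sum_involution (fun I _ => tog R' I) ?_ ?_ ?_ ?_
  · intro I _
    rw [et_tog_self, et_tog_ne h]; ring
  · intro I _ _
    exact tog_ne R' I
  · intro I hI
    exact tog_mem hR' hI
  · intro I _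
    exact tog_tog R' I

lemma et_sq (R : ℕ) (I : Finset ℕ) : et R I * et R I = 1 := by
  unfold et; split_ifs <;> norm_num

lemma sum_ind {R R' K : ℕ} (hR' : R' < K) :
    ∑ I ∈ (range K).powerset, (if R ∈ I then (1 : ℝ) else 0) * et R' I =
      if R = R' then (2 : ℝ) ^ K / 2 else 0 := by
  have h1 : ∀ I : Finset ℕ, (if R ∈ I then (1 : ℝ) else 0) * et R' I =
      (1 / 2) * et R' I + (1 / 2) * (et R I * et R' I) := by
    intro I
    unfold et
    split_ifs <;> norm_num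
  simp only [h1]
  rw [Finset.sum_add_distrib, ← Finset.mul_sum, ← Finset.mul_sum, sum_et hR']
  by_cases h : R = R'
  · subst h
    simp only [et_sq, if_true, Finset.sum_const, Finset.card_powerset, card_range, nsmul_eq_mul]
    push_cast
    ring
  · rw [sum_et_et hR' h, if_neg h]; ring

variable {β : Type*}

lemma tdig_eq (a b : ℕ) : tdig a b =
    (if a % 2 = 0 ∧ b % 2 = 1 ∧ a / 2 = b / 2 then (1 : ℝ) else 0) -
    (if b % 2 = 0 ∧ a % 2 = 1 ∧ b / 2 = a / 2 then (1 : ℝ) else 0) := by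
  unfold tdig sgn
  by_cases h : a / 2 = b / 2
  · rw [if_pos h]
    rcases lt_trichotomy a b with h1 | h1 | h1
    · have h2 : a % 2 = 0 ∧ b % 2 = 1 ∧ a / 2 = b / 2 := by omega
      have h3 : ¬ (b % 2 = 0 ∧ a % 2 = 1 ∧ b / 2 = a / 2) := by omega
      rw [if_pos h1, if_pos h2, if_neg h3]; ring
    · have h2 : ¬ (a % 2 = 0 ∧ b % 2 = 1 ∧ a / 2 = b / 2) := by omega
      have h3 : ¬ (b % 2 = 0 ∧ a % 2 = 1 ∧ b / 2 = a / 2) := by omega
      have h4 : ¬ a < b := by omega
      have h5 : ¬ b < a := by omega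
      rw [if_neg h4, if_neg h5, if_neg h2, if_neg h3]; ring
    · have h2 : ¬ (a % 2 = 0 ∧ b % 2 = 1 ∧ a / 2 = b / 2) := by omega
      have h3 : (b % 2 = 0 ∧ a % 2 = 1 ∧ b / 2 = a / 2) := by omega
      have h4 : ¬ a < b := by omega
      rw [if_neg h4, if_pos h1, if_neg h2, if_pos h3]; ring
  · have h2 : ¬ (a % 2 = 0 ∧ b % 2 = 1 ∧ a / 2 = b / 2) := by tauto
    have h3 : ¬ (b % 2 = 0 ∧ a % 2 = 1 ∧ b / 2 = a / 2) := fun h' => h h'.2.2.symm
    rw [if_neg h, if_neg h2, if_neg h3]; ring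

theorem cut_lemma (S : Finset β) (u : β → ℕ) (K : ℕ) (hu : ∀ x ∈ S, u x < 2 * K)
    (M : β → β → ℝ) (hM : ∀ x y, M x y = - M y x) (v : ℝ)
    (hv : v ≤ ∑ x ∈ S, ∑ y ∈ S, M x y * tdig (u x) (u y)) :
    ∃ X ⊆ S, ∃ Y ⊆ S, Disjoint X Y ∧ v / 8 ≤ |∑ x ∈ X, ∑ y ∈ Y, M x y| := by
  set ev : β → β → ℝ := fun x y =>
    if u x % 2 = 0 ∧ u y % 2 = 1 ∧ u x / 2 = u y / 2 then (1 : ℝ) else 0 with hev
  have e1 : ∑ x ∈ S, ∑ y ∈ S, M x y * tdig (u x) (u y) =
      2 * ∑ x ∈ S, ∑ y ∈ S, M x y * ev x y := by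
    have h1 : ∑ x ∈ S, ∑ y ∈ S, M x y * ev y x = - ∑ x ∈ S, ∑ y ∈ S, M x y * ev x y := by
      rw [Finset.sum_comm, ← Finset.sum_neg_distrib]
      refine Finset.sum_congr rfl fun x _ => ?_
      rw [← Finset.sum_neg_distrib]
      refine Finset.sum_congr rfl fun y _ => ?_
      rw [hM y x]; ring
    have h2 : ∑ x ∈ S, ∑ y ∈ S, M x y * tdig (u x) (u y) =
        ∑ x ∈ S, ∑ y ∈ S, M x y * ev x y - ∑ x ∈ S, ∑ y ∈ S, M x y * ev y x := by
      rw [← Finset.sum_sub_distrib]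
      refine Finset.sum_congr rfl fun x _ => ?_
      rw [← Finset.sum_sub_distrib]
      refine Finset.sum_congr rfl fun y _ => ?_
      rw [tdig_eq]
      simp only [hev]
      ring
    rw [h2, h1]; ring
  set V := ∑ x ∈ S, ∑ y ∈ S, M x y * ev x y with hV
  set XI : Finset ℕ → Finset β := fun I => S.filter fun x => u x % 2 = 0 ∧ u x / 2 ∈ I with hXI
  set YI : Finset ℕ → Finset β := fun I => S.filter fun x => u x % 2 = 1 ∧ u x / 2 ∈ I with hYI
  set YJ : Finset ℕ → Finset β := fun I => S.filter fun x => u x % 2 = 1 ∧ u x / 2 ∉ I with hYJ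
  set D : Finset ℕ → ℝ := fun I => ∑ x ∈ XI I, ∑ y ∈ YI I, M x y - ∑ x ∈ XI I, ∑ y ∈ YJ I, M x y
    with hD
  have e2 : ∀ I, D I = ∑ x ∈ S, ∑ y ∈ S, (M x y *
      (if u x % 2 = 0 ∧ u y % 2 = 1 then (1 : ℝ) else 0)) *
      ((if u x / 2 ∈ I then (1 : ℝ) else 0) * et (u y / 2) I) := by
    intro I
    simp only [hD, hXI, hYI, hYJ]
    rw [← Finset.sum_sub_distrib, Finset.sum_filter]
    refine Finset.sum_congr rfl fun x _ => ?_
    by_cases hx : u x % 2 = 0 ∧ u x / 2 ∈ I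
    · rw [if_pos hx, Finset.sum_filter, Finset.sum_filter, ← Finset.sum_sub_distrib]
      refine Finset.sum_congr rfl fun y _ => ?_
      unfold et
      by_cases hy : u y % 2 = 1
      · by_cases hyI : u y / 2 ∈ I
        · simp [hx.1, hx.2, hy, hyI]
        · simp [hx.1, hx.2, hy, hyI]
      · simp [hy]
    · rw [if_neg hx]
      symm
      refine Finset.sum_eq_zero fun y _ => ?_
      by_cases hx1 : u x % 2 = 0
      · have hx2 : u x / 2 ∉ I := fun h => hx ⟨hx1, h⟩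
        simp [hx2]
      · simp [hx1]
  have e3 : ∑ I ∈ (range K).powerset, D I = 2 ^ K / 2 * V := by
    simp only [e2]
    rw [Finset.sum_comm, hV, Finset.mul_sum]
    refine Finset.sum_congr rfl fun x _ => ?_
    rw [Finset.sum_comm, Finset.mul_sum]
    refine Finset.sum_congr rfl fun y hy => ?_
    rw [← Finset.mul_sum]
    have hyK : u y / 2 < K := by have := hu y hy; omega
    rw [sum_ind hyK]
    simp only [hev]
    by_cases h1 : u x / 2 = u y / 2
    · rw [if_pos h1]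
      by_cases h2 : u x % 2 = 0 ∧ u y % 2 = 1
      · rw [if_pos h2, if_pos ⟨h2.1, h2.2, h1⟩]; ring
      · have h3 : ¬ (u x % 2 = 0 ∧ u y % 2 = 1 ∧ u x / 2 = u y / 2) := fun h => h2 ⟨h.1, h.2.1⟩
        rw [if_neg h2, if_neg h3]; ring
    · have h3 : ¬ (u x % 2 = 0 ∧ u y % 2 = 1 ∧ u x / 2 = u y / 2) := fun h => h1 h.2.2
      rw [if_neg h1, if_neg h3]; ring
  have e4 : ∑ I ∈ (range K).powerset, v / 4 ≤ ∑ I ∈ (range K).powerset, D I := by
    rw [e3, Finset.sum_const, Finset.card_powerset, card_range, nsmul_eq_mul]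
    push_cast
    have h1 : v ≤ 2 * V := by rw [← e1]; exact hv
    have h2 : (0 : ℝ) < 2 ^ K := by positivity
    nlinarith
  obtain ⟨I, _, hI⟩ := Finset.exists_le_of_sum_le
    (Finset.powerset_nonempty (range K)) e4
  have hdisj1 : Disjoint (XI I) (YI I) := by
    rw [Finset.disjoint_left]
    intro x hx hy
    have h1 := (Finset.mem_filter.mp hx).2.1
    have h2 := (Finset.mem_filter.mp hy).2.1
    omega
  have hdisj2 : Disjoint (XI I) (YJ I) := by
    rw [Finset.disjoint_left]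
    intro x hx hy
    have h1 := (Finset.mem_filter.mp hx).2.1
    have h2 := (Finset.mem_filter.mp hy).2.1
    omega
  by_cases hcase : v / 8 ≤ |∑ x ∈ XI I, ∑ y ∈ YI I, M x y|
  · exact ⟨XI I, Finset.filter_subset _ _, YI I, Finset.filter_subset _ _, hdisj1, hcase⟩
  · refine ⟨XI I, Finset.filter_subset _ _, YJ I, Finset.filter_subset _ _, hdisj2, ?_⟩
    push Not at hcase
    have h1 := le_abs_self (∑ x ∈ XI I, ∑ y ∈ YI I, M x y)
    have h2 := neg_abs_le (∑ x ∈ XI I, ∑ y ∈ YJ I, M x y)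
    have h3 : D I = ∑ x ∈ XI I, ∑ y ∈ YI I, M x y - ∑ x ∈ XI I, ∑ y ∈ YJ I, M x y := rfl
    rw [h3] at hI
    linarith

end Pool.Agent.TH161.LW
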