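import Mathlib
import Pool.Agent.TH161.LW.Info2
import Pool.Agent.TH161.LW.Cut

/-!
# The entropy form of Komlós' pigeonhole principle
-/

set_option autoImplicit false

open Finset
open scoped Classical

namespace Pool.Agent.TH161.LW

lemma sgn_anti (s t : ℕ) : sgn s t = - sgn t s := by
  unfold sgn
  rcases lt_trichotomy s t with h | h | h
  · simp [h, h.not_gt]
  · simp [h]
  · simp [h, h.not_gt]

lemma sgn_self (s : ℕ) : sgn s s = 0 := by simp [sgn]

/-- entropy of a partition into three parts -/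
lemma ent3 {a b z : ℝ} (ha : 0 ≤ a) (hb : 0 ≤ b) (hz : 0 ≤ z) (hn : 0 < a + b + z) :
    ph (a + b + z) ≤ ph a + ph b + ph z + (a + b + z) * Real.log 3 := by
  set n := a + b + z with hndef
  have key : ∀ t : ℝ, 0 ≤ t → t * Real.log n - ph t ≤ t * Real.log 3 + (n / 3 - t) := by
    intro t ht
    rcases ht.eq_or_lt with h | h
    · rw [← h]
      simp only [ph, zero_mul, sub_zero, zero_add]
      positivity
    · have h3 : Real.log (n / (3 * t)) ≤ n / (3 * t) - 1 :=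
        Real.log_le_sub_one_of_pos (by positivity)
      have h4 : Real.log (n / (3 * t)) = Real.log n - (Real.log 3 + Real.log t) := by
        rw [Real.log_div hn.ne' (by positivity), Real.log_mul (by norm_num) h.ne']
      rw [h4] at h3
      have h5 := mul_le_mul_of_nonneg_left h3 h.le
      have h6 : t * (n / (3 * t) - 1) = n / 3 - t := by field_simp
      rw [h6] at h5
      unfold ph
      linarith
  have h1 := key a ha
  have h2 := key b hb
  have h3 := key z hz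
  have h4 : ph n = a * Real.log n + b * Real.log n + z * Real.log n := by
    unfold ph; rw [← add_mul, ← add_mul]
  rw [h4]
  have h5 : n * Real.log 3 = a * Real.log 3 + b * Real.log 3 + z * Real.log 3 := by
    rw [← add_mul, ← add_mul]
  linarith

variable {Ω β : Type*} [Fintype Ω]

/-- sum of signs -/
noncomputable def BT (c : β → Ω → ℕ) (x y : β) : ℝ := ∑ ω, sgn (c x ω) (c y ω)

lemma BT_anti (c : β → Ω → ℕ) (x y : β) : BT c x y = - BT c y x := by
  unfold BT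
  rw [← Finset.sum_neg_distrib]
  exact Finset.sum_congr rfl fun ω _ => sgn_anti _ _

/-- total information -/
noncomputable def GG (r : ℕ) (c : β → Ω → ℕ) (X : Finset β) : ℝ := ∑ ω, Gw r (fun x => c x ω) X

lemma GG_super {r : ℕ} {c : β → Ω → ℕ} {X Y : Finset β} (h : Disjoint X Y)
    (hu : ∀ x ∈ X, ∀ ω, c x ω < r) (hv : ∀ x ∈ Y, ∀ ω, c x ω < r) :
    GG r c X + GG r c Y ≤ GG r c (X ∪ Y) := by
  unfold GG
  rw [← Finset.sum_add_distrib]
  exact Finset.sum_le_sum fun ω _ => Gw_super h (fun x hx => hu x hx ω) (fun x hx => hv x hx ω)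

lemma GG_le {r : ℕ} (hr : 0 < r) {c : β → Ω → ℕ} {X : Finset β}
    (hu : ∀ x ∈ X, ∀ ω, c x ω < r) : GG r c X ≤ Fintype.card Ω * (X.card * Real.log r) := by
  unfold GG
  refine (Finset.sum_le_sum fun ω _ => Gw_le hr (fun x hx => hu x hx ω)).trans ?_
  simp [Finset.sum_const, Finset.card_univ]

lemma GG_gain [Nonempty Ω] {r : ℕ} {c : β → Ω → ℕ} {X Y : Finset β} (h : Disjoint X Y)
    (hX : X.Nonempty) (hY : Y.Nonempty)
    (hu : ∀ x ∈ X, ∀ ω, c x ω < r) (hv : ∀ x ∈ Y, ∀ ω, c x ω < r) {τ : ℝ} (hτ0 : 0 ≤ τ)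
    (hτ : τ ≤ |∑ x ∈ X, ∑ y ∈ Y, BT c x y|) :
    GG r c X + GG r c Y +
      τ ^ 2 / (8 * (X.card + Y.card) * (X.card * Y.card) * Fintype.card Ω) ≤
      GG r c (X ∪ Y) := by
  have hA : (0 : ℝ) < X.card := by exact_mod_cast hX.card_pos
  have hB : (0 : ℝ) < Y.card := by exact_mod_cast hY.card_pos
  have hΩ : (0 : ℝ) < Fintype.card Ω := by exact_mod_cast Fintype.card_pos
  set A : ℝ := (X.card : ℝ) with hAdef
  set B : ℝ := (Y.card : ℝ) with hBdef
  set d : Ω → ℝ := fun ω => dist1 r (fun x => c x ω) X Y with hd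
  have hd0 : ∀ ω, 0 ≤ d ω := fun ω => Finset.sum_nonneg fun s _ => abs_nonneg _
  have h1 : τ ≤ A * B * ∑ ω, d ω := by
    refine hτ.trans ?_
    have e1 : ∑ x ∈ X, ∑ y ∈ Y, BT c x y = ∑ ω, ∑ x ∈ X, ∑ y ∈ Y, sgn (c x ω) (c y ω) := by
      unfold BT
      rw [Finset.sum_congr rfl (fun x _ => Finset.sum_comm)]
      exact Finset.sum_comm
    rw [e1, Finset.mul_sum]
    refine (Finset.abs_sum_le_sum_abs _ _).trans (Finset.sum_le_sum fun ω _ => ?_)
    exact sgn_form_le hX hY (fun x hx => hu x hx ω) (fun x hx => hv x hx ω)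
  have h2 : (∑ ω, d ω) ^ 2 ≤ Fintype.card Ω * ∑ ω, d ω ^ 2 := by
    have := sq_sum_le_card_mul_sum_sq (s := (univ : Finset Ω)) (f := d)
    simpa using this
  have h3 : GG r c X + GG r c Y + ∑ ω, (A * B) / (8 * (A + B)) * d ω ^ 2 ≤ GG r c (X ∪ Y) := by
    unfold GG
    rw [← Finset.sum_add_distrib, ← Finset.sum_add_distrib]
    exact Finset.sum_le_sum fun ω _ =>
      Gw_union h hX hY (fun x hx => hu x hx ω) (fun x hx => hv x hx ω)
  refine le_trans ?_ h3
  rw [← Finset.mul_sum]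
  have hAB : 0 < A * B := mul_pos hA hB
  have hApB : 0 < A + B := add_pos hA hB
  have h4 : τ ^ 2 ≤ (A * B) ^ 2 * (Fintype.card Ω * ∑ ω, d ω ^ 2) := by
    calc τ ^ 2 ≤ (A * B * ∑ ω, d ω) ^ 2 := pow_le_pow_left₀ hτ0 h1 2
      _ = (A * B) ^ 2 * (∑ ω, d ω) ^ 2 := by ring
      _ ≤ _ := mul_le_mul_of_nonneg_left h2 (sq_nonneg _)
  have h5 : τ ^ 2 / (8 * (A + B) * (A * B) * Fintype.card Ω) ≤
      (A * B) / (8 * (A + B)) * ∑ ω, d ω ^ 2 := by
    rw [div_le_iff₀ (mul_pos (mul_pos (mul_pos (by norm_num) hApB) hAB) hΩ)]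
    refine h4.trans_eq ?_
    have : A + B ≠ 0 := hApB.ne'
    field_simp
  linarith

/-- a good cut -/
lemma exists_cut [Nonempty Ω] {J : ℕ} (hJ : 1 ≤ J) {c : β → Ω → ℕ} {S : Finset β}
    (hc : ∀ x ∈ S, ∀ ω, c x ω < 2 ^ J) {δ : ℝ} (hδ : 0 < δ)
    (hB : ∀ x ∈ S, ∀ y ∈ S, x ≠ y → δ * Fintype.card Ω ≤ |BT c x y|) :
    ∃ X ⊆ S, ∃ Y ⊆ S, Disjoint X Y ∧
      δ ^ 2 * Fintype.card Ω * (S.card * (S.card - 1)) / J / 8 ≤ |∑ x ∈ X, ∑ y ∈ Y, BT c x y| := by
  have hΩ : (0 : ℝ) < Fintype.card Ω := by exact_mod_cast Fintype.card_pos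
  have hJ' : (0 : ℝ) < J := by exact_mod_cast hJ
  set N : ℝ := (S.card : ℝ) with hN
  set m : ℝ := (Fintype.card Ω : ℝ) with hm
  -- the sum of squares
  have h1 : (δ * m) ^ 2 * (N * (N - 1)) ≤ ∑ x ∈ S, ∑ y ∈ S, BT c x y * BT c x y := by
    have h2 : ∀ x ∈ S, (N - 1) * (δ * m) ^ 2 ≤ ∑ y ∈ S, BT c x y * BT c x y := by
      intro x hx
      have h3 : ∑ y ∈ S.erase x, (δ * m) ^ 2 ≤ ∑ y ∈ S.erase x, BT c x y * BT c x y := by
        refine Finset.sum_le_sum fun y hy => ?_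
        have h4 := hB x hx y (Finset.mem_of_mem_erase hy) (Finset.ne_of_mem_erase hy).symm
        have h5 : (δ * m) ^ 2 ≤ |BT c x y| ^ 2 := pow_le_pow_left₀ (by positivity) h4 2
        rw [sq_abs] at h5
        linarith [h5, sq (BT c x y)]
      have h4 : ∑ y ∈ S.erase x, BT c x y * BT c x y ≤ ∑ y ∈ S, BT c x y * BT c x y :=
        Finset.sum_le_sum_of_subset_of_nonneg (Finset.erase_subset _ _)
          (fun y _ _ => mul_self_nonneg _)
      have hcard : 1 ≤ S.card := Finset.card_pos.mpr ⟨x, hx⟩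
      have h5 : ∑ y ∈ S.erase x, (δ * m) ^ 2 = (N - 1) * (δ * m) ^ 2 := by
        rw [Finset.sum_const, Finset.card_erase_of_mem hx, nsmul_eq_mul, Nat.cast_sub hcard]
        push_cast
        rfl
      linarith
    have h3 := Finset.sum_le_sum h2
    rw [Finset.sum_const, nsmul_eq_mul] at h3
    refine le_trans (le_of_eq ?_) h3
    ring
  have h2 : ∑ x ∈ S, ∑ y ∈ S, BT c x y * BT c x y = ∑ ω, ∑ j ∈ range J,
      ∑ x ∈ S, ∑ y ∈ S, BT c x y * tdig (c x ω / 2 ^ j) (c y ω / 2 ^ j) := by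
    have h3 : ∀ x ∈ S, ∀ y ∈ S, BT c x y * BT c x y = ∑ ω, ∑ j ∈ range J,
        BT c x y * tdig (c x ω / 2 ^ j) (c y ω / 2 ^ j) := by
      intro x hx y hy
      have h4 : BT c x y = ∑ ω, ∑ j ∈ range J, tdig (c x ω / 2 ^ j) (c y ω / 2 ^ j) :=
        Finset.sum_congr rfl fun ω _ => sgn_eq J _ _ (hc x hx ω) (hc y hy ω)
      calc BT c x y * BT c x y
          = BT c x y * ∑ ω, ∑ j ∈ range J, tdig (c x ω / 2 ^ j) (c y ω / 2 ^ j) :=
            congrArg (fun t => BT c x y * t) h4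
        _ = ∑ ω, BT c x y * ∑ j ∈ range J, tdig (c x ω / 2 ^ j) (c y ω / 2 ^ j) :=
            Finset.mul_sum _ _ _
        _ = _ := Finset.sum_congr rfl fun ω _ => Finset.mul_sum _ _ _
    calc ∑ x ∈ S, ∑ y ∈ S, BT c x y * BT c x y
        = ∑ x ∈ S, ∑ y ∈ S, ∑ ω, ∑ j ∈ range J,
          BT c x y * tdig (c x ω / 2 ^ j) (c y ω / 2 ^ j) :=
          Finset.sum_congr rfl fun x hx => Finset.sum_congr rfl fun y hy => h3 x hx y hy
      _ = ∑ x ∈ S, ∑ ω, ∑ y ∈ S, ∑ j ∈ range J,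
          BT c x y * tdig (c x ω / 2 ^ j) (c y ω / 2 ^ j) :=
          Finset.sum_congr rfl fun x _ => Finset.sum_comm
      _ = ∑ ω, ∑ x ∈ S, ∑ y ∈ S, ∑ j ∈ range J,
          BT c x y * tdig (c x ω / 2 ^ j) (c y ω / 2 ^ j) := Finset.sum_comm
      _ = ∑ ω, ∑ x ∈ S, ∑ j ∈ range J, ∑ y ∈ S,
          BT c x y * tdig (c x ω / 2 ^ j) (c y ω / 2 ^ j) :=
          Finset.sum_congr rfl fun ω _ => Finset.sum_congr rfl fun x _ => Finset.sum_comm
      _ = _ := Finset.sum_congr rfl fun ω _ => Finset.sum_comm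
  set v : ℝ := δ ^ 2 * m * (N * (N - 1)) / J with hv
  have h3 : ∃ ω : Ω, ∃ j ∈ range J,
      v ≤ ∑ x ∈ S, ∑ y ∈ S, BT c x y * tdig (c x ω / 2 ^ j) (c y ω / 2 ^ j) := by
    by_contra hcon
    push Not at hcon
    have h4 : ∑ ω : Ω, ∑ j ∈ range J,
        ∑ x ∈ S, ∑ y ∈ S, BT c x y * tdig (c x ω / 2 ^ j) (c y ω / 2 ^ j) <
        ∑ ω : Ω, ∑ j ∈ range J, v := by
      refine Finset.sum_lt_sum_of_nonempty Finset.univ_nonempty fun ω _ => ?_
      exact Finset.sum_lt_sum_of_nonempty (Finset.nonempty_range_iff.mpr (by omega))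
        fun j hj => hcon ω j hj
    simp only [Finset.sum_const, card_range, Finset.card_univ, nsmul_eq_mul] at h4
    have h5 : m * (J * v) = (δ * m) ^ 2 * (N * (N - 1)) := by
      rw [hv]; field_simp
    rw [← hm, h5, ← h2] at h4
    linarith
  obtain ⟨ω, j, _, hj⟩ := h3
  have h4 := cut_lemma S (fun x => c x ω / 2 ^ j) (2 ^ J) (fun x hx => by
    have h5 := hc x hx ω
    have h6 : c x ω / 2 ^ j ≤ c x ω := Nat.div_le_self _ _
    show c x ω / 2 ^ j < 2 * 2 ^ J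
    omega) (BT c) (BT_anti c) v hj
  exact h4

/-- the main induction -/
theorem info_ind [Nonempty Ω] {J : ℕ} (hJ : 1 ≤ J) {c : β → Ω → ℕ} {δ : ℝ} (hδ : 0 < δ) (n : ℕ) :
    ∀ S : Finset β, S.card = n → (∀ x ∈ S, ∀ ω, c x ω < 2 ^ J) →
      (∀ x ∈ S, ∀ y ∈ S, x ≠ y → δ * Fintype.card Ω ≤ |BT c x y|) →
      δ ^ 4 / (512 * J ^ 2 * Real.log 3) * Fintype.card Ω * ph S.card ≤ GG (2 ^ J) c S := by
  induction n using Nat.strong_induction_on with
  | _ n ih =>
  intro S hSn hc hB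
  have hΩ : (0 : ℝ) < Fintype.card Ω := by exact_mod_cast Fintype.card_pos
  have hJ' : (0 : ℝ) < J := by exact_mod_cast hJ
  have hlog3 : 0 < Real.log 3 := Real.log_pos (by norm_num)
  set g : ℝ := δ ^ 4 / (512 * J ^ 2 * Real.log 3) with hg
  have hg0 : 0 < g := by positivity
  set m : ℝ := (Fintype.card Ω : ℝ) with hm
  have hGG0 : ∀ X : Finset β, X.card ≤ 1 → GG (2 ^ J) c X = ∑ ω : Ω, Gw (2 ^ J) (fun x => c x ω) X := fun _ _ => rfl
  by_cases hn : S.card ≤ 1
  · -- trivial case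
    have h1 : ph (S.card : ℝ) = 0 := by
      unfold ph
      interval_cases h : S.card <;> simp
    rw [h1, mul_zero]
    unfold GG
    refine Finset.sum_nonneg fun ω _ => ?_
    unfold Gw
    rw [h1, zero_sub, neg_nonneg]
    refine Finset.sum_nonpos fun s _ => ?_
    have h2 : (S.filter fun x => c x ω = s).card ≤ 1 := (Finset.card_filter_le _ _).trans hn
    unfold cnt ph
    interval_cases h : (S.filter fun x => c x ω = s).card <;> simp
  push Not at hn
  set N : ℝ := (S.card : ℝ) with hN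
  have hN2 : (2 : ℝ) ≤ N := by rw [hN]; exact_mod_cast hn
  obtain ⟨X, hXS, Y, hYS, hXY, hcut⟩ := exists_cut hJ hc hδ hB
  have hτpos : 0 < δ ^ 2 * m * (N * (N - 1)) / J / 8 := by
    have : 0 < N - 1 := by linarith
    positivity
  have hXne : X.Nonempty := by
    rw [Finset.nonempty_iff_ne_empty]
    rintro rfl
    simp at hcut
    linarith
  have hYne : Y.Nonempty := by
    rw [Finset.nonempty_iff_ne_empty]
    rintro rfl
    simp at hcut
    linarith
  set Z := S \ (X ∪ Y) with hZ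
  have hZS : Z ⊆ S := Finset.sdiff_subset
  have hXYS : X ∪ Y ⊆ S := Finset.union_subset hXS hYS
  have hSun : (X ∪ Y) ∪ Z = S := Finset.union_sdiff_of_subset hXYS
  have hdisZ : Disjoint (X ∪ Y) Z := Finset.disjoint_sdiff
  have hcardS : X.card + Y.card + Z.card = S.card := by
    rw [← Finset.card_union_of_disjoint hXY, ← Finset.card_union_of_disjoint hdisZ, hSun]
  have hXc := hXne.card_pos
  have hYc := hYne.card_pos
  have iX := ih X.card (by omega) X rfl (fun x hx => hc x (hXS hx))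
    (fun x hx y hy => hB x (hXS hx) y (hXS hy))
  have iY := ih Y.card (by omega) Y rfl (fun x hx => hc x (hYS hx))
    (fun x hx y hy => hB x (hYS hx) y (hYS hy))
  have iZ := ih Z.card (by omega) Z rfl (fun x hx => hc x (hZS hx))
    (fun x hx y hy => hB x (hZS hx) y (hZS hy))
  have s1 := GG_gain hXY hXne hYne (fun x hx => hc x (hXS hx)) (fun x hx => hc x (hYS hx))
    hτpos.le hcut
  have s2 := GG_super hdisZ (fun x hx => hc x (hXYS hx)) (fun x hx => hc x (hZS hx))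
  rw [hSun] at s2
  set A : ℝ := (X.card : ℝ) with hA
  set B : ℝ := (Y.card : ℝ) with hB'
  set C : ℝ := (Z.card : ℝ) with hC
  have hApos : 0 < A := by rw [hA]; exact_mod_cast hXc
  have hBpos : 0 < B := by rw [hB']; exact_mod_cast hYc
  have hC0 : 0 ≤ C := by positivity
  have hsum : A + B + C = N := by
    rw [hA, hB', hC, hN]; exact_mod_cast hcardS
  -- the gain
  have hgain : δ ^ 4 / (512 * J ^ 2) * m * N ≤
      (δ ^ 2 * m * (N * (N - 1)) / J / 8) ^ 2 / (8 * (A + B) * (A * B) * m) := by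
    rw [le_div_iff₀ (by positivity)]
    have hABN : A + B ≤ N := by linarith
    have h1 : 4 * (A * B) ≤ N ^ 2 := by
      have h2 : 4 * (A * B) ≤ (A + B) ^ 2 := by nlinarith [sq_nonneg (A - B)]
      have h3 : (A + B) ^ 2 ≤ N ^ 2 := pow_le_pow_left₀ (by positivity) hABN 2
      linarith
    have h2 : N / 2 ≤ N - 1 := by linarith
    have h3 : (N / 2) ^ 2 ≤ (N - 1) ^ 2 := pow_le_pow_left₀ (by positivity) h2 2
    have h4 : (A + B) * (4 * (A * B)) ≤ N * N ^ 2 := mul_le_mul hABN h1 (by positivity) (by positivity)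
    have e1 : δ ^ 4 / (512 * (J : ℝ) ^ 2) * m * N * (8 * (A + B) * (A * B) * m) =
        (δ ^ 4 * m ^ 2 / (256 * J ^ 2)) * (N * ((A + B) * (4 * (A * B)))) := by
      field_simp
      ring
    have e2 : (δ ^ 2 * m * (N * (N - 1)) / J / 8) ^ 2 =
        (δ ^ 4 * m ^ 2 / (256 * J ^ 2)) * (4 * N ^ 2 * (N - 1) ^ 2) := by
      field_simp
      ring
    rw [e1, e2]
    refine mul_le_mul_of_nonneg_left ?_ (by positivity)
    have h5 : N * ((A + B) * (4 * (A * B))) ≤ N * (N * N ^ 2) :=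
      mul_le_mul_of_nonneg_left h4 (by positivity)
    have h6 : 4 * N ^ 2 * (N / 2) ^ 2 ≤ 4 * N ^ 2 * (N - 1) ^ 2 :=
      mul_le_mul_of_nonneg_left h3 (by positivity)
    have h7 : 4 * N ^ 2 * (N / 2) ^ 2 = N * (N * N ^ 2) := by ring
    linarith
  have hent := ent3 hApos.le hBpos.le hC0 (by linarith)
  rw [hsum] at hent
  have hgl : g * m * (N * Real.log 3) = δ ^ 4 / (512 * J ^ 2) * m * N := by
    rw [hg]; field_simp
  have hgm : 0 ≤ g * m := by positivity
  have h8 := mul_le_mul_of_nonneg_left hent hgm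
  rw [mul_add, mul_add, mul_add, hgl] at h8
  linarith

theorem info [Nonempty Ω] {J : ℕ} (hJ : 1 ≤ J) {c : β → Ω → ℕ} {δ : ℝ} (hδ : 0 < δ)
    {S : Finset β} (hS : S.Nonempty) (hc : ∀ x ∈ S, ∀ ω, c x ω < 2 ^ J)
    (hB : ∀ x ∈ S, ∀ y ∈ S, x ≠ y → δ * Fintype.card Ω ≤ |BT c x y|) :
    δ ^ 4 * Real.log S.card ≤ 500 * (J : ℝ) ^ 3 := by
  have hΩ : (0 : ℝ) < Fintype.card Ω := by exact_mod_cast Fintype.card_pos
  have hJ' : (0 : ℝ) < J := by exact_mod_cast hJ
  have hlog3 : 0 < Real.log 3 := Real.log_pos (by norm_num)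
  have hN : (0 : ℝ) < S.card := by exact_mod_cast hS.card_pos
  have h1 := info_ind hJ hδ S.card S rfl hc hB
  have h2 := GG_le (by positivity) hc
  have h3 := h1.trans h2
  push_cast at h3
  rw [Real.log_pow] at h3
  unfold ph at h3
  have h4 : δ ^ 4 / (512 * (J : ℝ) ^ 2 * Real.log 3) * Real.log S.card ≤ J * Real.log 2 := by
    have h5 : (Fintype.card Ω * S.card : ℝ) *
        (δ ^ 4 / (512 * (J : ℝ) ^ 2 * Real.log 3) * Real.log S.card) ≤
        (Fintype.card Ω * S.card : ℝ) * (J * Real.log 2) := by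
      refine le_trans (le_of_eq ?_) (h3.trans_eq ?_)
      · ring
      · ring
    exact le_of_mul_le_mul_left h5 (mul_pos hΩ hN)
  have h5 : δ ^ 4 * Real.log S.card ≤ 512 * (J : ℝ) ^ 2 * Real.log 3 * (J * Real.log 2) := by
    rw [div_mul_eq_mul_div, div_le_iff₀ (by positivity)] at h4
    linarith
  have h6 : Real.log 3 ≤ 2 * Real.log 2 := by
    have : Real.log 3 ≤ Real.log 4 := Real.log_le_log (by norm_num) (by norm_num)
    have h7 : Real.log 4 = 2 * Real.log 2 := by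
      rw [show (4 : ℝ) = 2 ^ 2 by norm_num, Real.log_pow]; norm_num
    linarith
  have h7 : Real.log 2 < 0.6931471808 := Real.log_two_lt_d9
  have h8 : 0 < Real.log 2 := Real.log_pos (by norm_num)
  have h9 : Real.log 3 * Real.log 2 ≤ 500 / 512 := by
    have : Real.log 3 * Real.log 2 ≤ (2 * Real.log 2) * Real.log 2 :=
      mul_le_mul_of_nonneg_right h6 h8.le
    nlinarith
  calc δ ^ 4 * Real.log S.card ≤ 512 * (J : ℝ) ^ 2 * Real.log 3 * (J * Real.log 2) := h5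
    _ = 512 * (J : ℝ) ^ 3 * (Real.log 3 * Real.log 2) := by ring
    _ ≤ 512 * (J : ℝ) ^ 3 * (500 / 512) := by gcongr
    _ = _ := by ring

end Pool.Agent.TH161.LW
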