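import Mathlib
import Pool.Agent.TH161.LW.Main
import Pool.Agent.TH161.LW.Window
import Pool.Agent.TH161.LW.Info3

/-!
# Balanced pairs in large antichains, local version: the events
-/

set_option autoImplicit false

open Finset Filter Topology
open scoped Classical

namespace Pool.Agent.TH161.LW

variable {α : Type*} [Fintype α] [PartialOrder α]

lemma ratio_event (he : 0 < eN α) {c0 c1 : ℕ} (h0 : 0 < c0) (h1 : 0 < c1) :
    ∀ᶠ u : ℕ in atTop, ((Om α (c1 * u)).card : ℝ) ≤
      2 * ((c1 : ℝ) / c0) ^ Fintype.card α * (Om α (c0 * u)).card := by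
  set n := Fintype.card α with hn
  set L : ℝ := (eN α : ℝ) * (1 / n.factorial) with hL
  have hLpos : 0 < L := by
    have h1 : (0 : ℝ) < eN α := by exact_mod_cast he
    have h2 : (0 : ℝ) < n.factorial := by exact_mod_cast n.factorial_pos
    positivity
  have hT0 : Tendsto (fun u : ℕ => c0 * u) atTop atTop :=
    Filter.tendsto_atTop_mono (fun k => Nat.le_mul_of_pos_left k h0) tendsto_id
  have hT1 : Tendsto (fun u : ℕ => c1 * u) atTop atTop :=
    Filter.tendsto_atTop_mono (fun k => Nat.le_mul_of_pos_left k h1) tendsto_id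
  have hOm := tendsto_Om (α := α)
  have e1 := (hOm.comp hT0).eventually (lt_mem_nhds (show 3 / 4 * L < L by linarith))
  have e2 := (hOm.comp hT1).eventually (gt_mem_nhds (show L < 5 / 4 * L by linarith))
  filter_upwards [e1, e2, eventually_ge_atTop 1] with u e1 e2 hu
  simp only [Function.comp] at e1 e2
  have hu' : (0 : ℝ) < u := by exact_mod_cast hu
  have h0' : (0 : ℝ) < c0 := by exact_mod_cast h0
  have h1' : (0 : ℝ) < c1 := by exact_mod_cast h1
  push_cast at e1 e2
  rw [div_lt_iff₀ (by positivity)] at e2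
  rw [lt_div_iff₀ (by positivity)] at e1
  have hx : ((c1 : ℝ) * u) ^ n = ((c1 : ℝ) / c0) ^ n * (c0 * u) ^ n := by
    rw [← mul_pow]
    congr 1
    field_simp
  rw [hx] at e2
  have hc : (0 : ℝ) < ((c1 : ℝ) / c0) ^ n := by positivity
  nlinarith [mul_lt_mul_of_pos_left e1 hc]

lemma noninj_event (he : 0 < eN α) {c0 : ℕ} (h0 : 0 < c0) {δ : ℝ} (hδ : 0 < δ) :
    ∀ᶠ u : ℕ in atTop, (((Om α (c0 * u)).filter fun f => ¬ Function.Injective f).card : ℝ) ≤
      δ * (Om α (c0 * u)).card := by
  set n := Fintype.card α with hn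
  set L : ℝ := (eN α : ℝ) * (1 / n.factorial) with hL
  have hLpos : 0 < L := by
    have h1 : (0 : ℝ) < eN α := by exact_mod_cast he
    have h2 : (0 : ℝ) < n.factorial := by exact_mod_cast n.factorial_pos
    positivity
  have hT0 : Tendsto (fun u : ℕ => c0 * u) atTop atTop :=
    Filter.tendsto_atTop_mono (fun k => Nat.le_mul_of_pos_left k h0) tendsto_id
  have hOm := tendsto_Om (α := α)
  have hNI := tendsto_noninj (α := α)
  have e1 := (hOm.comp hT0).eventually (lt_mem_nhds (show 3 / 4 * L < L by linarith))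
  have e2 := (hNI.comp hT0).eventually (gt_mem_nhds (show (0 : ℝ) < δ * (3 / 4 * L) by positivity))
  filter_upwards [e1, e2, eventually_ge_atTop 1] with u e1 e2 hu
  simp only [Function.comp] at e1 e2
  have hu' : (0 : ℝ) < u := by exact_mod_cast hu
  have h0' : (0 : ℝ) < c0 := by exact_mod_cast h0
  push_cast at e1 e2
  rw [div_lt_iff₀ (by positivity)] at e2
  rw [lt_div_iff₀ (by positivity)] at e1
  nlinarith [mul_lt_mul_of_pos_left e1 hδ]

/-- choice of the grid -/
lemma exists_grid2 (he : 0 < eN α) (b q w : ℕ) (hw : 0 < w) (hn : 0 < Fintype.card α) :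
    ∃ u : ℕ, 1 ≤ u ∧
      ((Om α (Fintype.card α * 2 ^ (2 * b + 5) * u + w * 2 ^ (b + 5) * u)).card : ℝ) ≤
        2 * (1 + w / (Fintype.card α * 2 ^ b)) ^ Fintype.card α *
          (Om α (Fintype.card α * 2 ^ (2 * b + 5) * u)).card ∧
      (((Om α (Fintype.card α * 2 ^ (2 * b + 5) * u)).filter fun f =>
        ¬ Function.Injective f).card : ℝ) ≤
        1 / 2 ^ b * (Om α (Fintype.card α * 2 ^ (2 * b + 5) * u)).card ∧
      (2 ^ (q + 1) * w < Fintype.card α →
        ((Om α (Fintype.card α * 2 ^ (2 * b + 5) * u - w * 2 ^ (2 * b + q + 6) * u)).card : ℝ) ≤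
        2 * (1 - 2 ^ (q + 1) * w / Fintype.card α) ^ Fintype.card α *
          (Om α (Fintype.card α * 2 ^ (2 * b + 5) * u)).card) := by
  set n := Fintype.card α with hndef
  have hn' : (0 : ℝ) < n := by exact_mod_cast hn
  have h0 : 0 < n * 2 ^ (2 * b + 5) := by positivity
  have h1 : 0 < n * 2 ^ (2 * b + 5) + w * 2 ^ (b + 5) := by positivity
  have ev1 := ratio_event he h0 h1
  have ev2 := noninj_event he h0 (show (0 : ℝ) < 1 / 2 ^ b by positivity)
  have ev3 : ∀ᶠ u : ℕ in atTop, (2 ^ (q + 1) * w < n →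
        ((Om α (n * 2 ^ (2 * b + 5) * u - w * 2 ^ (2 * b + q + 6) * u)).card : ℝ) ≤
        2 * (1 - 2 ^ (q + 1) * w / n) ^ n * (Om α (n * 2 ^ (2 * b + 5) * u)).card) := by
    by_cases hc : 2 ^ (q + 1) * w < n
    · have hlt : w * 2 ^ (2 * b + q + 6) < n * 2 ^ (2 * b + 5) := by
        have e1 : w * 2 ^ (2 * b + q + 6) = (2 ^ (q + 1) * w) * 2 ^ (2 * b + 5) := by ring
        rw [e1]
        exact Nat.mul_lt_mul_of_pos_right hc (by positivity)
      have h2 : 0 < n * 2 ^ (2 * b + 5) - w * 2 ^ (2 * b + q + 6) := by omega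
      filter_upwards [ratio_event he h0 h2] with u hu _
      rw [Nat.sub_mul] at hu
      refine hu.trans_eq ?_
      congr 3
      rw [Nat.cast_sub hlt.le]
      push_cast
      field_simp
      ring
    · exact Eventually.of_forall fun u h => absurd h hc
  obtain ⟨u, h1, h2, h3, hu⟩ := (ev1.and (ev2.and (ev3.and (eventually_ge_atTop 1)))).exists
  refine ⟨u, hu, ?_, h2, h3⟩
  rw [Nat.add_mul] at h1
  refine h1.trans_eq ?_
  congr 3
  push_cast
  have e1 : (2 : ℝ) ^ (2 * b + 5) = 2 ^ b * 2 ^ (b + 5) := by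
    rw [← pow_add]; congr 1; ring
  rw [e1]
  field_simp

/-- few maps are tight at many elements of the antichain -/
lemma few_bad2 {A : Finset α} (hA : IsAntichain (· ≤ ·) (A : Set α)) (b M t : ℕ) (ht : 1 ≤ t)
    (hn : 0 < Fintype.card α) (hw : 2 ^ b * (b + 1) ≤ A.card)
    (h : ((Om α (M + 32 * t)).card : ℝ) ≤
        2 * (1 + A.card / (Fintype.card α * 2 ^ b)) ^ Fintype.card α * (Om α M).card) :
    2 ^ b * ((Om α M).filter fun f => A.card ≤ 2 ^ b *
      (A.filter fun x => len M f x ≤ t).card).card ≤ (Om α M).card := by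
  set E := (Om α M).filter fun f => A.card ≤ 2 ^ b * (A.filter fun x => len M f x ≤ t).card
    with hE
  have hn' : (0 : ℝ) < Fintype.card α := by exact_mod_cast hn
  have hbp : 0 < 2 ^ b := by positivity
  set k := (A.card + 2 ^ b - 1) / 2 ^ b with hk
  have hk1 : ∀ f ∈ E, k ≤ (A.filter fun x => len M f x ≤ t).card := by
    intro f hf
    have h1 := (Finset.mem_filter.mp hf).2
    rw [hk]
    rw [Nat.div_le_iff_le_mul_add_pred hbp]
    omega
  have hk2 : A.card ≤ 2 ^ b * k := by
    have := Nat.div_add_mod (A.card + 2 ^ b - 1) (2 ^ b)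
    have := Nat.mod_lt (A.card + 2 ^ b - 1) hbp
    rw [hk]
    omega
  have hk3 : b + 1 ≤ k := by
    have : 2 ^ b * (b + 1) ≤ 2 ^ b * k := hw.trans hk2
    exact Nat.le_of_mul_le_mul_left this hbp
  have h1 := shift_count hA (M := M) (m := 32 * t) (t := t) (k := k) E (Finset.filter_subset _ _) hk1
  have h2 : E.card * 33 ^ k ≤ (Om α (M + 32 * t)).card := by
    have e1 : t + 32 * t = 33 * t := by ring
    rw [e1, mul_pow] at h1
    have : t ^ k * (E.card * 33 ^ k) ≤ t ^ k * (Om α (M + 32 * t)).card := by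
      calc t ^ k * (E.card * 33 ^ k) = E.card * (33 ^ k * t ^ k) := by ring
        _ ≤ _ := h1
    exact Nat.le_of_mul_le_mul_left this (by positivity)
  have h3 : (E.card : ℝ) * 33 ^ k ≤ 2 * 3 ^ k * (Om α M).card := by
    have h4 : (E.card : ℝ) * 33 ^ k ≤ ((Om α (M + 32 * t)).card : ℝ) := by
      exact_mod_cast h2
    refine (h4.trans h).trans ?_
    have h5 : (1 + (A.card : ℝ) / (Fintype.card α * 2 ^ b)) ^ Fintype.card α ≤ 3 ^ k := by
      set y : ℝ := (A.card : ℝ) / (Fintype.card α * 2 ^ b) with hy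
      have hy0 : 0 ≤ y := by positivity
      have e1 : 1 + y ≤ Real.exp y := by
        have := Real.add_one_le_exp y
        linarith
      have e2 : (Fintype.card α : ℝ) * y ≤ k := by
        have e3 : (A.card : ℝ) ≤ 2 ^ b * k := by exact_mod_cast hk2
        have e5 : (Fintype.card α : ℝ) * y = A.card / 2 ^ b := by
          rw [hy]; field_simp
        rw [e5, div_le_iff₀ (by positivity)]
        linarith
      have e4 : Real.exp 1 ≤ 3 := by
        have := Real.exp_one_lt_d9
        linarith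
      calc (1 + y) ^ Fintype.card α
          ≤ (Real.exp y) ^ Fintype.card α :=
            pow_le_pow_left₀ (by positivity) e1 _
        _ = Real.exp ((Fintype.card α : ℝ) * y) := by rw [← Real.exp_nat_mul]
        _ ≤ Real.exp (k : ℝ) := Real.exp_le_exp.mpr e2
        _ = (Real.exp 1) ^ k := by rw [← Real.exp_nat_mul, mul_one]
        _ ≤ 3 ^ k := pow_le_pow_left₀ (Real.exp_pos _).le e4 _
    gcongr
  have h6 : (E.card : ℝ) * 11 ^ k ≤ 2 * (Om α M).card := by
    have e1 : (33 : ℝ) ^ k = 3 ^ k * 11 ^ k := by rw [← mul_pow]; norm_num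
    rw [e1] at h3
    have e2 : (3 : ℝ) ^ k * (E.card * 11 ^ k) ≤ 3 ^ k * (2 * (Om α M).card) := by
      calc (3 : ℝ) ^ k * (E.card * 11 ^ k) = E.card * (3 ^ k * 11 ^ k) := by ring
        _ ≤ _ := h3
        _ = _ := by ring
    exact le_of_mul_le_mul_left e2 (by positivity)
  have h7 : (2 : ℝ) ^ (b + 1) ≤ 11 ^ k := by
    calc (2 : ℝ) ^ (b + 1) ≤ 2 ^ k := pow_le_pow_right₀ (by norm_num) hk3
      _ ≤ 11 ^ k := pow_le_pow_left₀ (by norm_num) (by norm_num) _
  have h8 : (E.card : ℝ) * 2 ^ (b + 1) ≤ 2 * (Om α M).card :=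
    (mul_le_mul_of_nonneg_left h7 (by positivity)).trans h6
  have h9 : (2 : ℝ) ^ b * E.card ≤ (Om α M).card := by
    rw [pow_succ] at h8
    linarith
  exact_mod_cast h9

/-- the window is rarely long -/
lemma few_long {A : Finset α} (b q M d : ℕ) (hn : 0 < Fintype.card α)
    (hK : (KK A).card ≤ 2 ^ q * A.card) (hw : b + 1 ≤ A.card)
    (hd : Fintype.card α ≤ 2 ^ (q + 1) * A.card → M ≤ d)
    (h : 2 ^ (q + 1) * A.card < Fintype.card α → ((Om α (M - d)).card : ℝ) ≤
      2 * (1 - 2 ^ (q + 1) * A.card / Fintype.card α) ^ Fintype.card α * (Om α M).card) :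
    2 ^ b * ((Om α M).filter fun f => lo0 A f + 2 * d ≤ hi0 A M f).card ≤ (Om α M).card := by
  set E := (Om α M).filter fun f => lo0 A f + 2 * d ≤ hi0 A M f with hE
  have hn' : (0 : ℝ) < Fintype.card α := by exact_mod_cast hn
  by_cases hc : 2 ^ (q + 1) * A.card < Fintype.card α
  · have h1 := window_count A M d
    have h2 := h hc
    set w : ℝ := (A.card : ℝ) with hwdef
    set n : ℝ := (Fintype.card α : ℝ) with hndef
    have hc' : (2 : ℝ) ^ (q + 1) * w < n := by
      rw [hwdef, hndef]; exact_mod_cast hc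
    set y : ℝ := 2 ^ (q + 1) * w / n with hy
    have hy1 : 0 ≤ 1 - y := by
      have : y ≤ 1 := by rw [hy, div_le_one hn']; exact hc'.le
      linarith
    have h3 : (1 - y) ^ Fintype.card α ≤ Real.exp (-(2 ^ (q + 1) * w)) := by
      have e1 : 1 - y ≤ Real.exp (-y) := by
        have := Real.add_one_le_exp (-y)
        linarith
      calc (1 - y) ^ Fintype.card α ≤ (Real.exp (-y)) ^ Fintype.card α :=
            pow_le_pow_left₀ hy1 e1 _
        _ = Real.exp ((Fintype.card α : ℝ) * (-y)) := by rw [← Real.exp_nat_mul]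
        _ = Real.exp (-(2 ^ (q + 1) * w)) := by
            congr 1
            rw [← hndef, hy]
            field_simp
    have h4 : Real.exp (-(2 ^ (q + 1) * w)) ≤ (1 / 4) ^ (2 ^ q * A.card) := by
      have e1 : Real.exp (-2) ≤ 1 / 4 := by
        rw [Real.exp_neg, ← one_div]
        apply one_div_le_one_div_of_le (by norm_num)
        have e2 := Real.exp_one_gt_d9
        have e3 : Real.exp 2 = Real.exp 1 * Real.exp 1 := by
          rw [← Real.exp_add]; norm_num
        rw [e3]
        nlinarith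
      calc Real.exp (-(2 ^ (q + 1) * w)) = (Real.exp (-2)) ^ (2 ^ q * A.card) := by
            rw [← Real.exp_nat_mul]
            congr 1
            push_cast
            rw [pow_succ]
            ring
        _ ≤ _ := pow_le_pow_left₀ (Real.exp_pos _).le e1 _
    have h5 : (E.card : ℝ) ≤ 2 ^ (2 ^ q * A.card) *
        (2 * (1 / 4) ^ (2 ^ q * A.card) * (Om α M).card) := by
      have e1 : (E.card : ℝ) ≤ 2 ^ (KK A).card * (Om α (M - d)).card := by exact_mod_cast h1
      refine e1.trans ?_
      have e2 : (2 : ℝ) ^ (KK A).card ≤ 2 ^ (2 ^ q * A.card) :=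
        pow_le_pow_right₀ (by norm_num) hK
      have e3 : ((Om α (M - d)).card : ℝ) ≤ 2 * (1 / 4) ^ (2 ^ q * A.card) * (Om α M).card := by
        refine h2.trans ?_
        have := h3.trans h4
        gcongr
      exact mul_le_mul e2 e3 (by positivity) (by positivity)
    have h6 : (E.card : ℝ) ≤ 2 * (1 / 2) ^ (2 ^ q * A.card) * (Om α M).card := by
      refine h5.trans_eq ?_
      have e1 : (2 : ℝ) ^ (2 ^ q * A.card) * (1 / 4) ^ (2 ^ q * A.card) =
          (1 / 2) ^ (2 ^ q * A.card) := by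
        rw [← mul_pow]; norm_num
      rw [← e1]; ring
    have h7 : (1 / 2 : ℝ) ^ (2 ^ q * A.card) ≤ (1 / 2) ^ (b + 1) := by
      refine pow_le_pow_of_le_one (by norm_num) (by norm_num) ?_
      calc b + 1 ≤ A.card := hw
        _ = 1 * A.card := (one_mul _).symm
        _ ≤ _ := Nat.mul_le_mul_right _ Nat.one_le_two_pow
    have h8 : (2 : ℝ) ^ b * E.card ≤ (Om α M).card := by
      calc (2 : ℝ) ^ b * E.card ≤ 2 ^ b * (2 * (1 / 2) ^ (b + 1) * (Om α M).card) := by
            refine mul_le_mul_of_nonneg_left (h6.trans ?_) (by positivity)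
            gcongr
        _ = (Om α M).card := by
            rw [pow_succ, one_div, inv_pow]
            field_simp
    exact_mod_cast h8
  · have h1 := hd (not_lt.mp hc)
    by_cases hM : M = 0
    · have : Om α M = ∅ := by
        rw [Finset.eq_empty_iff_forall_notMem]
        intro f hf
        obtain ⟨z⟩ : Nonempty α := Fintype.card_pos_iff.mp hn
        have := (mem_Om.mp hf).1 z
        omega
      rw [hE, this]
      simp
    · have : E = ∅ := by
        rw [Finset.eq_empty_iff_forall_notMem]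
        intro f hf
        obtain ⟨hf1, hf2⟩ := Finset.mem_filter.mp hf
        have h3 : hi0 A M f ≤ M - 1 := (le_hi0.mp le_rfl).1
        omega
      rw [this]
      simp

end Pool.Agent.TH161.LW
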