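import Mathlib
import Pool.Agent.TH161.LW.Main2

/-!
# Balanced pairs in large antichains, local version: the main theorem
-/

set_option autoImplicit false

open Finset Filter Topology
open scoped Classical

namespace Pool.Agent.TH161.LW

variable {α : Type*} [Fintype α] [PartialOrder α]

/-- sum of the signs for a general cell function -/
noncomputable def D2 (α : Type*) [Fintype α] [PartialOrder α] (M : ℕ) (c : α → (α → ℕ) → ℕ)
    (x y : α) : ℝ :=
  ∑ f ∈ Om α M, sgn (c x f) (c y f)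

lemma D2_ge (M : ℕ) (c : α → (α → ℕ) → ℕ) (x y : α)
    (hxy : ∀ f : α → ℕ, f x ≤ f y → c x f ≤ c y f)
    (hyx : ∀ f : α → ℕ, f y ≤ f x → c y f ≤ c x f) :
    ((eP α x y : ℝ) - eP α y x) * M.choose (Fintype.card α) -
      ((Om α M).filter fun f => ¬ Function.Injective f).card -
      ((Om α M).filter fun f => c x f = c y f).card ≤ D2 α M c x y := by
  have h1 : D2 α M c x y =
      (((Om α M).filter fun f => c x f < c y f).card : ℝ) -
      ((Om α M).filter fun f => c y f < c x f).card := by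
    unfold D2
    rw [Finset.card_filter, Finset.card_filter]
    push_cast
    rw [← Finset.sum_sub_distrib]
    refine Finset.sum_congr rfl fun f _ => ?_
    unfold sgn
    rcases lt_trichotomy (c x f) (c y f) with h | h | h
    · simp [h, h.not_gt]
    · simp [h]
    · simp [h, h.not_gt]
  have h2 : eP α x y * M.choose (Fintype.card α) ≤
      ((Om α M).filter fun f => c x f < c y f).card +
      ((Om α M).filter fun f => c x f = c y f).card := by
    rw [← card_inj_lt]
    refine (Finset.card_le_card ?_).trans (Finset.card_union_le _ _)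
    intro f hf
    obtain ⟨h3, _, h4⟩ := Finset.mem_filter.mp hf
    have h5 : c x f ≤ c y f := hxy f h4.le
    rcases h5.lt_or_eq with h6 | h6
    · exact Finset.mem_union_left _ (Finset.mem_filter.mpr ⟨h3, h6⟩)
    · exact Finset.mem_union_right _ (Finset.mem_filter.mpr ⟨h3, h6⟩)
  have h3 : ((Om α M).filter fun f => c y f < c x f).card ≤
      eP α y x * M.choose (Fintype.card α) +
      ((Om α M).filter fun f => ¬ Function.Injective f).card := by
    rw [← card_inj_lt]
    refine (Finset.card_le_card ?_).trans (Finset.card_union_le _ _)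
    intro f hf
    obtain ⟨h3, h4⟩ := Finset.mem_filter.mp hf
    by_cases h5 : Function.Injective f
    · refine Finset.mem_union_left _ (Finset.mem_filter.mpr ⟨h3, h5, ?_⟩)
      by_contra h6
      exact absurd h4 (not_lt.mpr (hxy f (not_lt.mp h6)))
    · exact Finset.mem_union_right _ (Finset.mem_filter.mpr ⟨h3, h5⟩)
  rw [h1]
  have h2' : (eP α x y : ℝ) * M.choose (Fintype.card α) ≤
      (((Om α M).filter fun f => c x f < c y f).card : ℝ) +
      ((Om α M).filter fun f => c x f = c y f).card := by exact_mod_cast h2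
  have h3' : (((Om α M).filter fun f => c y f < c x f).card : ℝ) ≤
      eP α y x * M.choose (Fintype.card α) +
      ((Om α M).filter fun f => ¬ Function.Injective f).card := by exact_mod_cast h3
  linarith

/-- an unbalanced pair has a large sum of signs -/
lemma unbalanced2 {M b : ℕ} {ε : ℝ} (hε2 : ε ≤ 1 / 2) (hb : 8 / 2 ^ b ≤ ε)
    {c : α → (α → ℕ) → ℕ}
    (hNI : (((Om α M).filter fun f => ¬ Function.Injective f).card : ℝ) ≤
      1 / 2 ^ b * (Om α M).card) {x y : α} (hxy : x ≠ y)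
    (hcxy : ∀ f : α → ℕ, f x ≤ f y → c x f ≤ c y f)
    (hcyx : ∀ f : α → ℕ, f y ≤ f x → c y f ≤ c x f)
    (hsame : 2 ^ b * ((Om α M).filter fun f => c x f = c y f).card ≤ 6 * (Om α M).card)
    (hun : (eP α y x : ℝ) < (1 / 2 - ε) * eN α) :
    ε * (Om α M).card ≤ D2 α M c x y := by
  have hadd : (eP α x y : ℝ) + eP α y x = eN α := by exact_mod_cast eP_add hxy
  have hsplit : ((Om α M).card : ℝ) = eN α * M.choose (Fintype.card α) +
    ((Om α M).filter fun f => ¬ Function.Injective f).card := by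
    exact_mod_cast card_Om_split (α := α) M
  have hD := D2_ge M c x y hcxy hcyx
  have hsame' : (((Om α M).filter fun f => c x f = c y f).card : ℝ) ≤
      6 / 2 ^ b * (Om α M).card := by
    have h1 : (2 : ℝ) ^ b * ((Om α M).filter fun f => c x f = c y f).card ≤
      6 * (Om α M).card := by exact_mod_cast hsame
    rw [div_mul_eq_mul_div, le_div_iff₀ (by positivity)]
    linarith
  set O : ℝ := ((Om α M).card : ℝ) with hO
  set NI : ℝ := (((Om α M).filter fun f => ¬ Function.Injective f).card : ℝ) with hNIdef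
  set C : ℝ := (M.choose (Fintype.card α) : ℝ) with hC
  have hC0 : 0 ≤ C := by positivity
  have hO0 : 0 ≤ O := by positivity
  have hNI0 : 0 ≤ NI := by positivity
  have hε0 : 0 < ε := lt_of_lt_of_le (by positivity) hb
  have h1 : 2 * ε * (eN α * C) ≤ ((eP α x y : ℝ) - eP α y x) * C := by
    have : 2 * ε * eN α ≤ (eP α x y : ℝ) - eP α y x := by linarith
    calc 2 * ε * (eN α * C) = (2 * ε * eN α) * C := by ring
      _ ≤ _ := mul_le_mul_of_nonneg_right this hC0
  have h2 : (eN α : ℝ) * C = O - NI := by linarith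
  rw [h2] at h1
  have hb1 : (0 : ℝ) < 1 / 2 ^ b := by positivity
  have h3 : 8 * (1 / 2 ^ b) * O ≤ ε * O := by
    refine mul_le_mul_of_nonneg_right ?_ hO0
    calc 8 * (1 / (2 : ℝ) ^ b) = 8 / 2 ^ b := by ring
      _ ≤ ε := hb
  have h4 : 6 / (2 : ℝ) ^ b * O = 6 * (1 / 2 ^ b * O) := by ring
  have h5 : 8 * (1 / 2 ^ b) * O = 8 * (1 / 2 ^ b * O) := by ring
  have h6 : 2 * ε * NI ≤ 1 * NI := mul_le_mul_of_nonneg_right (by linarith) hNI0
  rw [h4] at hsame'
  rw [h5] at h3
  nlinarith

/-- the cell function relative to the lower end of the window -/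
noncomputable def cf (A : Finset α) (M₀ J : ℕ) (x : α) (f : α → ℕ) : ℕ :=
  min (f x / M₀ - lo0 A f / M₀) (2 ^ J - 1)

lemma cf_mono (A : Finset α) (M₀ J : ℕ) {x y : α} (f : α → ℕ) (h : f x ≤ f y) :
    cf A M₀ J x f ≤ cf A M₀ J y f := by
  unfold cf
  exact min_le_min_right _ (Nat.sub_le_sub_right (Nat.div_le_div_right h) _)

lemma cf_lt (A : Finset α) (M₀ J : ℕ) (x : α) (f : α → ℕ) : cf A M₀ J x f < 2 ^ J := by
  unfold cf
  have : 0 < 2 ^ J := by positivity
  omega

lemma cf_eq {A : Finset α} {M M₀ J : ℕ} (hM₀ : 0 < M₀) (hJ : 1 ≤ J) {f : α → ℕ}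
    (hf : f ∈ Om α M) {x y : α} (hx : x ∈ A) (hy : y ∈ A)
    (hw : hi0 A M f < lo0 A f + 2 ^ (J - 1) * M₀) (h : cf A M₀ J x f = cf A M₀ J y f) :
    f x / M₀ = f y / M₀ := by
  have key : ∀ z ∈ A, lo0 A f / M₀ ≤ f z / M₀ ∧ f z / M₀ ≤ lo0 A f / M₀ + 2 ^ (J - 1) := by
    intro z hz
    refine ⟨Nat.div_le_div_right (lo0_le_self hf hz), ?_⟩
    have h1 := self_le_hi0 hf hz
    calc f z / M₀ ≤ (lo0 A f + 2 ^ (J - 1) * M₀) / M₀ := Nat.div_le_div_right (by omega)
      _ = lo0 A f / M₀ + 2 ^ (J - 1) := Nat.add_mul_div_right _ _ hM₀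
  obtain ⟨hx1, hx2⟩ := key x hx
  obtain ⟨hy1, hy2⟩ := key y hy
  have hp : 2 ^ J = 2 * 2 ^ (J - 1) := by
    rw [← pow_succ']
    congr 1
    omega
  have hp1 : 0 < 2 ^ (J - 1) := by positivity
  unfold cf at h
  omega

theorem main_disc2 (b q : ℕ) {ε : ℝ} (hε2 : ε ≤ 1 / 2) (hb : 8 / 2 ^ b ≤ ε)
    {A : Finset α} (hA : IsAntichain (· ≤ ·) (A : Set α))
    (hK : (KK A).card ≤ 2 ^ q * A.card)
    (hw1 : 2 ^ b * (b + 1) ≤ A.card) (hw2 : 2 ≤ A.card)
    (hw : 500 * ((2 * b + q + 8 : ℕ) : ℝ) ^ 3 < ε ^ 4 * Real.log (A.card / 2)) :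
    ∃ x ∈ A, ∃ y ∈ A, x ≠ y ∧ (1 / 2 - ε) * (eN α : ℝ) ≤ eP α x y ∧
      (1 / 2 - ε) * (eN α : ℝ) ≤ eP α y x := by
  have hε0 : 0 < ε := lt_of_lt_of_le (by positivity) hb
  by_cases he : eN α = 0
  · obtain ⟨x, hx, y, hy, hxy⟩ := Finset.one_lt_card.mp (by omega : 1 < A.card)
    exact ⟨x, hx, y, hy, hxy, by simp [he], by simp [he]⟩
  by_contra hcon
  push Not at hcon
  have hn : 0 < Fintype.card α := by
    have : A.card ≤ Fintype.card α := Finset.card_le_univ A
    omega
  have hb1 : b + 1 ≤ A.card := by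
    have : 1 * (b + 1) ≤ 2 ^ b * (b + 1) := Nat.mul_le_mul_right _ Nat.one_le_two_pow
    omega
  obtain ⟨u, hu, hgrid, hNI, hwin⟩ := exists_grid2 (α := α) (Nat.pos_of_ne_zero he) b q A.card
    (by omega) hn
  set M := Fintype.card α * 2 ^ (2 * b + 5) * u with hM
  set M₀ := A.card * u with hM₀def
  set d := A.card * 2 ^ (2 * b + q + 6) * u with hd
  have hM₀ : 0 < M₀ := Nat.mul_pos (by omega) (by omega)
  have hMpos : 0 < M := by rw [hM]; positivity
  have hOm : 0 < (Om α M).card := by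
    refine Finset.card_pos.mpr ⟨fun _ => 0, mem_Om.mpr ⟨fun _ => hMpos, fun _ _ _ => le_rfl⟩⟩
  have ht : 1 ≤ 2 ^ b * M₀ := Nat.mul_pos (by positivity) hM₀
  have hgrid' : ((Om α (M + 32 * (2 ^ b * M₀))).card : ℝ) ≤
        2 * (1 + A.card / (Fintype.card α * 2 ^ b)) ^ Fintype.card α * (Om α M).card := by
    have e1 : 32 * (2 ^ b * M₀) = A.card * 2 ^ (b + 5) * u := by rw [hM₀def]; ring
    rw [e1]
    exact hgrid
  have hbad := few_bad2 hA b M (2 ^ b * M₀) ht hn hw1 hgrid'
  have hgood := many_good b M (2 ^ b * M₀) hOm hbad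
  have hlong := few_long b q M d hn hK hb1 (fun h => by
    rw [hM, hd]
    calc Fintype.card α * 2 ^ (2 * b + 5) * u ≤ (2 ^ (q + 1) * A.card) * 2 ^ (2 * b + 5) * u := by
          gcongr
      _ = A.card * 2 ^ (2 * b + q + 6) * u := by ring) hwin
  have h2d : 2 * d = 2 ^ (2 * b + q + 7) * M₀ := by rw [hd, hM₀def]; ring
  set S := A.filter fun x => 2 ^ b * ((Om α M).filter fun f => len M f x ≤ 2 ^ b * M₀).card ≤
      4 * (Om α M).card with hS
  have hSA : S ⊆ A := Finset.filter_subset _ _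
  have hsame : ∀ x ∈ S, ∀ y ∈ S, x ≠ y →
      2 ^ b * ((Om α M).filter fun f => cf A M₀ (2 * b + q + 8) x f =
        cf A M₀ (2 * b + q + 8) y f).card ≤ 6 * (Om α M).card := by
    intro x hx y hy hxy
    have hsx := same_cell hxy b M M₀ hM₀ (Finset.mem_filter.mp hx).2
    have h2 : ((Om α M).filter fun f => cf A M₀ (2 * b + q + 8) x f =
        cf A M₀ (2 * b + q + 8) y f).card ≤
        ((Om α M).filter fun f => f x / M₀ = f y / M₀).card +
        ((Om α M).filter fun f => lo0 A f + 2 * d ≤ hi0 A M f).card := by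
      refine (Finset.card_le_card ?_).trans (Finset.card_union_le _ _)
      intro f hf
      obtain ⟨h3, h4⟩ := Finset.mem_filter.mp hf
      by_cases h5 : lo0 A f + 2 * d ≤ hi0 A M f
      · exact Finset.mem_union_right _ (Finset.mem_filter.mpr ⟨h3, h5⟩)
      · refine Finset.mem_union_left _ (Finset.mem_filter.mpr ⟨h3, ?_⟩)
        refine cf_eq hM₀ (by omega) h3 (hSA hx) (hSA hy) ?_ h4
        have e1 : 2 * b + q + 8 - 1 = 2 * b + q + 7 := by omega
        rw [e1, ← h2d]
        exact not_le.mp h5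
    have h3 := Nat.mul_le_mul_left (2 ^ b) h2
    rw [Nat.mul_add] at h3
    omega
  have hne : Nonempty (Om α M) := by
    obtain ⟨f, hf⟩ := Finset.card_pos.mp hOm
    exact ⟨⟨f, hf⟩⟩
  have hSne : S.Nonempty := Finset.card_pos.mp (by omega)
  have hinfo := info (Ω := Om α M) (J := 2 * b + q + 8) (by omega)
    (c := fun (x : α) (ω : Om α M) => cf A M₀ (2 * b + q + 8) x ω.1) hε0 hSne
    (fun x _ ω => cf_lt _ _ _ _ _) (fun x hx y hy hxy => by
      have hBT : BT (fun (x : α) (ω : Om α M) => cf A M₀ (2 * b + q + 8) x ω.1) x y =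
          D2 α M (cf A M₀ (2 * b + q + 8)) x y := by
        unfold BT D2
        exact Finset.sum_coe_sort (Om α M) (fun f => sgn (cf A M₀ (2 * b + q + 8) x f)
          (cf A M₀ (2 * b + q + 8) y f))
      have hBT2 : BT (fun (x : α) (ω : Om α M) => cf A M₀ (2 * b + q + 8) x ω.1) y x =
          D2 α M (cf A M₀ (2 * b + q + 8)) y x := by
        unfold BT D2
        exact Finset.sum_coe_sort (Om α M) (fun f => sgn (cf A M₀ (2 * b + q + 8) y f)
          (cf A M₀ (2 * b + q + 8) x f))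
      simp only [Fintype.card_coe]
      by_cases h1 : (eP α y x : ℝ) < (1 / 2 - ε) * eN α
      · have h2 := unbalanced2 hε2 hb hNI hxy (cf_mono A M₀ (2 * b + q + 8))
          (cf_mono A M₀ (2 * b + q + 8)) (hsame x hx y hy hxy) h1
        rw [hBT]
        exact h2.trans (le_abs_self _)
      · have h2 : (eP α x y : ℝ) < (1 / 2 - ε) * eN α := by
          by_contra h3
          exact absurd (not_lt.mp h1)
            (not_le.mpr (hcon x (hSA hx) y (hSA hy) hxy (not_lt.mp h3)))
        have h3 := unbalanced2 hε2 hb hNI hxy.symm (cf_mono A M₀ (2 * b + q + 8))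
          (cf_mono A M₀ (2 * b + q + 8)) (hsame y hy x hx hxy.symm) h2
        rw [BT_anti, abs_neg, hBT2]
        exact h3.trans (le_abs_self _))
  have hlog : Real.log (A.card / 2) ≤ Real.log S.card := by
    have h1 : (0 : ℝ) < A.card := by exact_mod_cast (by omega : 0 < A.card)
    refine Real.log_le_log (by positivity) ?_
    have h2 : (A.card : ℝ) ≤ 2 * S.card := by exact_mod_cast hgood
    linarith
  have h4 : ε ^ 4 * Real.log (A.card / 2) ≤ ε ^ 4 * Real.log S.card :=
    mul_le_mul_of_nonneg_left hlog (by positivity)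
  linarith

end Pool.Agent.TH161.LW
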