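import Mathlib
import Pool.Agent.TH161.LW.Final2

/-!
# Balanced pairs in large antichains, local version: real parameters
-/

set_option autoImplicit false

open Finset Filter Topology
open scoped Classical

namespace Pool.Agent.TH161.LW

variable {α : Type*} [Fintype α] [PartialOrder α]

theorem main_real {ε κ : ℝ} (hε0 : 0 < ε) (hε2 : ε ≤ 1 / 2) (hκ : 1 ≤ κ)
    {A : Finset α} (hA : IsAntichain (· ≤ ·) (A : Set α))
    (hK : ((KK A).card : ℝ) ≤ κ * A.card)
    (hw : 20000000 * Real.log (κ / ε) ^ 3 / ε ^ 4 ≤ Real.log A.card) :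
    ∃ x ∈ A, ∃ y ∈ A, x ≠ y ∧ (1 / 2 - ε) * (eN α : ℝ) ≤ eP α x y ∧
      (1 / 2 - ε) * (eN α : ℝ) ≤ eP α y x := by
  have hl2 : 0.6931471803 < Real.log 2 := Real.log_two_gt_d9
  have hl2' : Real.log 2 < 0.6931471808 := Real.log_two_lt_d9
  have hl0 : 0 < Real.log 2 := by linarith
  obtain ⟨b', hb1, hb2⟩ := exists_nat_pow_near (show (1 : ℝ) ≤ 8 / ε by
    rw [le_div_iff₀ hε0]; linarith) (by norm_num : (1 : ℝ) < 2)
  obtain ⟨q', hq1, hq2⟩ := exists_nat_pow_near hκ (by norm_num : (1 : ℝ) < 2)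
  set b := b' + 1 with hb
  set q := q' + 1 with hq
  have hb3 : (2 : ℝ) ^ b ≤ 16 / ε := by
    rw [hb, pow_succ]
    calc (2 : ℝ) ^ b' * 2 ≤ (8 / ε) * 2 := by linarith
      _ = 16 / ε := by ring
  have hq3 : (2 : ℝ) ^ q ≤ 2 * κ := by
    rw [hq, pow_succ]
    linarith
  have hκ0 : 0 < κ := by linarith
  set L := Real.log (κ / ε) with hL
  have hLe : L = Real.log κ - Real.log ε := by rw [hL, Real.log_div hκ0.ne' hε0.ne']
  have hlκ : 0 ≤ Real.log κ := Real.log_nonneg hκ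
  have hlε : Real.log ε ≤ - Real.log 2 := by
    have h1 : Real.log ε ≤ Real.log (1 / 2) := Real.log_le_log hε0 hε2
    rwa [one_div, Real.log_inv] at h1
  have hL2 : Real.log 2 ≤ L := by rw [hLe]; linarith
  have hbL : (b : ℝ) * Real.log 2 ≤ 4 * Real.log 2 - Real.log ε := by
    have h1 := Real.log_le_log (by positivity) hb3
    rw [Real.log_pow, Real.log_div (by norm_num) hε0.ne',
      show (16 : ℝ) = 2 ^ 4 by norm_num, Real.log_pow] at h1
    push_cast at h1
    exact h1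
  have hqL : (q : ℝ) * Real.log 2 ≤ Real.log 2 + Real.log κ := by
    have h1 := Real.log_le_log (by positivity) hq3
    rw [Real.log_pow, Real.log_mul (by norm_num) hκ0.ne'] at h1
    exact h1
  have hJ : ((2 * b + q + 8 : ℕ) : ℝ) ≤ 28 * L := by
    have h1 : ((2 * b + q + 8 : ℕ) : ℝ) * Real.log 2 ≤ 19 * L := by
      push_cast
      have : (2 * (b : ℝ) + q + 8) * Real.log 2 =
        2 * (b * Real.log 2) + q * Real.log 2 + 8 * Real.log 2 := by ring
      rw [this]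
      linarith
    have h2 : 19 * L ≤ (28 * L) * Real.log 2 := by nlinarith
    exact le_of_mul_le_mul_right (h1.trans h2) hl0
  have hL0 : 0 < L := lt_of_lt_of_le hl0 hL2
  have hJ3 : 500 * ((2 * b + q + 8 : ℕ) : ℝ) ^ 3 ≤ 10976000 * L ^ 3 := by
    have h1 : ((2 * b + q + 8 : ℕ) : ℝ) ^ 3 ≤ (28 * L) ^ 3 :=
      pow_le_pow_left₀ (by positivity) hJ 3
    calc 500 * ((2 * b + q + 8 : ℕ) : ℝ) ^ 3 ≤ 500 * (28 * L) ^ 3 := by linarith
      _ = 10976000 * L ^ 3 := by ring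
  have hε4 : 0 < ε ^ 4 := by positivity
  have hw' : 20000000 * L ^ 3 ≤ ε ^ 4 * Real.log A.card := by
    rw [div_le_iff₀ hε4] at hw
    linarith
  have hL3 : (1 : ℝ) / 4 ≤ L ^ 3 := by
    have h1 : (0.65 : ℝ) ≤ L := by linarith
    calc (1 : ℝ) / 4 ≤ 0.65 ^ 3 := by norm_num
      _ ≤ L ^ 3 := pow_le_pow_left₀ (by norm_num) h1 3
  have hlogA : 0 < Real.log A.card := by
    by_contra h
    have : ε ^ 4 * Real.log A.card ≤ 0 := mul_nonpos_of_nonneg_of_nonpos hε4.le (not_lt.mp h)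
    linarith
  have hApos : (0 : ℝ) < A.card := by
    rcases Nat.eq_zero_or_pos A.card with h | h
    · rw [h] at hlogA; simp at hlogA
    · exact_mod_cast h
  have hε4' : ε ^ 4 ≤ 1 / 16 := by
    calc ε ^ 4 ≤ (1 / 2) ^ 4 := pow_le_pow_left₀ hε0.le hε2 4
      _ = 1 / 16 := by norm_num
  -- the size of the antichain
  have hbig : 256 / ε ^ 2 ≤ A.card := by
    have h1 : Real.log A.card ≤ A.card := (Real.log_le_sub_one_of_pos hApos).trans (by linarith)
    have h2 : 5000000 ≤ ε ^ 4 * Real.log A.card := by linarith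
    have h3 : ε ^ 4 * Real.log A.card ≤ ε ^ 4 * A.card := mul_le_mul_of_nonneg_left h1 hε4.le
    have h4 : ε ^ 4 * A.card ≤ ε ^ 2 * A.card := by
      refine mul_le_mul_of_nonneg_right ?_ hApos.le
      exact pow_le_pow_of_le_one hε0.le (by linarith) (by norm_num)
    rw [div_le_iff₀ (by positivity)]
    linarith
  have hw1 : 2 ^ b * (b + 1) ≤ A.card := by
    have h1 : b + 1 ≤ 2 ^ b := Nat.lt_two_pow_self
    have h2 : 2 ^ b * (b + 1) ≤ 2 ^ b * 2 ^ b := Nat.mul_le_mul_left _ h1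
    have h3 : ((2 ^ b * 2 ^ b : ℕ) : ℝ) ≤ A.card := by
      push_cast
      calc (2 : ℝ) ^ b * 2 ^ b ≤ (16 / ε) * (16 / ε) :=
            mul_le_mul hb3 hb3 (by positivity) (by positivity)
        _ = 256 / ε ^ 2 := by field_simp; norm_num
        _ ≤ _ := hbig
    have h4 : 2 ^ b * 2 ^ b ≤ A.card := by exact_mod_cast h3
    exact h2.trans h4
  have hw2 : 2 ≤ A.card := by
    have h1 : (1024 : ℝ) ≤ 256 / ε ^ 2 := by
      rw [le_div_iff₀ (by positivity)]
      nlinarith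
    have h2 : (1024 : ℝ) ≤ A.card := h1.trans hbig
    have h3 : 1024 ≤ A.card := by exact_mod_cast h2
    omega
  refine main_disc2 b q hε2 ?_ hA ?_ hw1 hw2 ?_
  · rw [div_le_iff₀ (by positivity)]
    rw [div_lt_iff₀ hε0] at hb2
    linarith
  · have h1 : ((KK A).card : ℝ) ≤ ((2 ^ q * A.card : ℕ) : ℝ) := by
      refine hK.trans ?_
      push_cast
      exact mul_le_mul_of_nonneg_right hq2.le hApos.le
    exact_mod_cast h1
  · rw [Real.log_div hApos.ne' (by norm_num)]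
    have h1 : ε ^ 4 * Real.log 2 ≤ 1 / 16 * Real.log 2 := mul_le_mul_of_nonneg_right hε4' hl0.le
    have h2 : ε ^ 4 * (Real.log A.card - Real.log 2) =
      ε ^ 4 * Real.log A.card - ε ^ 4 * Real.log 2 := by ring
    rw [h2]
    linarith

end Pool.Agent.TH161.LW
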